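import Pool.Agent.MP_187b32_an.C3.Cone

/-! Chaining: the anisotropic jump norm is bounded by cone jumps and the weight norm. -/

open MeasureTheory Real Set
open scoped ENNReal RealInnerProductSpace

noncomputable section

namespace Pool.Agent.MP_187b32_an.C3

open Pool.Agent.MP_187b32_an.Coll
open Pool.Agent.MP_187b32_an.Geo (perp cyl norm_sq_eq_perp)

lemma exists_dir (v : E) : ∃ e : E, ‖e‖ = 1 ∧ ∀ z : E, ⟪v, z⟫ = ‖v‖ * ⟪z, e⟫ := by
  by_cases hv : v = 0
  · exact ⟨Geo.ee 0, Geo.norm_ee 0, fun z => by simp [hv]⟩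
  · have hn : ‖v‖ ≠ 0 := norm_ne_zero_iff.2 hv
    refine ⟨‖v‖⁻¹ • v, by simp [norm_smul, hn], fun z => ?_⟩
    rw [inner_smul_right, mul_inv_cancel_left₀ hn, real_inner_comm]

lemma abs_inner_unit {e : E} (he : ‖e‖ = 1) (z : E) : |⟪z, e⟫| ≤ ‖z‖ := by
  simpa [he] using abs_real_inner_le_norm z e

lemma cyl_lower {e : E} (he : ‖e‖ = 1) {a d : ℝ} (hd : 0 ≤ d) {F : E → ℝ≥0∞}
    {Y : ℝ≥0∞} (h : ∀ k, |⟪k, e⟫| ≤ a → ‖perp e k‖ ∈ Ioo (2 * d) (3 * d) → Y ≤ F k) :
    ENNReal.ofReal (8 * π * d ^ 2 * a) * Y ≤ ∫⁻ k, F k := by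
  have m1 : Measurable ((Icc (-a) a).indicator fun _ => Y) :=
    measurable_const.indicator measurableSet_Icc
  have mΦ : Measurable (Function.uncurry fun t r : ℝ =>
      (Ioo (2 * d) (3 * d)).indicator (fun _ => (Icc (-a) a).indicator (fun _ => Y) t) r) :=
    Measurable.indicator (s := {q : ℝ × ℝ | q.2 ∈ Ioo (2 * d) (3 * d)})
      (f := fun q : ℝ × ℝ => (Icc (-a) a).indicator (fun _ => Y) q.1) (m1.comp measurable_fst)
      (measurable_snd measurableSet_Ioo)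
  calc _ = ∫⁻ t, ENNReal.ofReal (2 * π * (2 * d) * (3 * d - 2 * d))
        * (Icc (-a) a).indicator (fun _ => Y) t := by
        rw [lintegral_const_mul _ m1, lintegral_indicator_const measurableSet_Icc, Real.volume_Icc,
          mul_comm Y, ← mul_assoc, ← ENNReal.ofReal_mul (by nlinarith [pi_pos, sq_nonneg d])]
        congr 2; ring
    _ ≤ _ := lintegral_mono fun t => shell (by linarith) _
    _ = _ := (cyl he _ mΦ).symm
    _ ≤ _ := lintegral_mono fun k => by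
        by_cases h1 : ‖perp e k‖ ∈ Ioo (2 * d) (3 * d)
        · by_cases h2 : ⟪k, e⟫ ∈ Icc (-a) a
          · simp only [indicator_of_mem h1, indicator_of_mem h2]
            exact h k (abs_le.2 h2) h1
          · simp [indicator_of_mem h1, indicator_of_notMem h2]
        · simp [indicator_of_notMem h1]

lemma cyl_upper {e : E} (he : ‖e‖ = 1) {s : ℝ} (hs : 0 ≤ s) {φ : ℝ → ℝ≥0∞} (hφ : Measurable φ)
    {F : E → ℝ≥0∞} (h : ∀ z, ‖z‖ ≤ s → F z ≤ φ ⟪z, e⟫) (h0 : ∀ z, s < ‖z‖ → F z = 0) :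
    ∫⁻ z, F z ≤ ENNReal.ofReal (2 * π * s ^ 2) * ∫⁻ t, φ t := by
  have mΦ : Measurable (Function.uncurry fun t r : ℝ => (Iic s).indicator (fun _ => φ t) r) :=
    Measurable.indicator (s := {q : ℝ × ℝ | q.2 ∈ Iic s})
      (f := fun q : ℝ × ℝ => φ q.1) (hφ.comp measurable_fst) (measurable_snd measurableSet_Iic)
  calc _ ≤ ∫⁻ z : E, (Iic s).indicator (fun _ => φ ⟪z, e⟫) ‖perp e z‖ := by
        refine lintegral_mono fun z => ?_
        by_cases h1 : ‖z‖ ≤ s
        · simp only [indicator_of_mem (show ‖perp e z‖ ∈ Iic s from (perp_le_norm he z).trans h1)]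
          exact h z h1
        · simp [h0 z (not_le.1 h1)]
    _ = _ := cyl he _ mΦ
    _ ≤ ∫⁻ t, ENNReal.ofReal (2 * π * s ^ 2) * φ t := by
        refine lintegral_mono fun t => ?_
        calc _ ≤ ∫⁻ r in Ioi (0 : ℝ),
              (Iic s).indicator (fun _ => ENNReal.ofReal (2 * π * s) * φ t) r := by
              refine lintegral_mono fun r => ?_
              by_cases hr : r ∈ Iic s
              · simp only [indicator_of_mem hr]
                gcongr
                exact hr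
              · simp [indicator_of_notMem hr]
          _ = _ := by
              rw [lintegral_indicator_const measurableSet_Iic,
                Measure.restrict_apply measurableSet_Iic, inter_comm, Ioi_inter_Iic,
                Real.volume_Ioc, mul_right_comm, ← ENNReal.ofReal_mul (by positivity)]
              congr 2; ring
    _ = _ := lintegral_const_mul _ hφ

/-- normalised box kernel -/
def bk (v z k : E) : ℝ :=
  if ‖z‖ ≤ 2 * ‖k‖ ∧ |⟪v, z⟫| ≤ 2 * ‖k‖ then (1 + ‖v‖) / ‖k‖ ^ 3 else 0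

lemma bk_nonneg (v z k : E) : 0 ≤ bk v z k := by unfold bk; split_ifs <;> positivity

@[fun_prop] lemma Measurable.bk {α : Type*} [MeasurableSpace α] {a b c : α → E}
    (ha : Measurable a) (hb : Measurable b) (hc : Measurable c) :
    Measurable fun x => bk (a x) (b x) (c x) := by
  unfold C3.bk
  have h1 : MeasurableSet {x | ‖b x‖ ≤ 2 * ‖c x‖} := measurableSet_le (by fun_prop) (by fun_prop)
  have h2 : MeasurableSet {x | |⟪a x, b x⟫| ≤ 2 * ‖c x‖} :=
    measurableSet_le (by fun_prop) (by fun_prop)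
  exact Measurable.ite (h1.inter h2) (by fun_prop) measurable_const

lemma lint_bk (v k : E) : ∫⁻ z, ENNReal.ofReal (bk v z k) ≤ ENNReal.ofReal (64 * π) := by
  by_cases hk : k = 0
  · simp [bk, hk]
  have hn : 0 < ‖k‖ := norm_pos_iff.2 hk
  have hl : 0 < 1 + ‖v‖ := by positivity
  obtain ⟨e, he, hv⟩ := exists_dir v
  set a := 4 * ‖k‖ / (1 + ‖v‖) with ha
  refine (cyl_upper he (s := 2 * ‖k‖) (by positivity)
    (φ := (Icc (-a) a).indicator fun _ => ENNReal.ofReal ((1 + ‖v‖) / ‖k‖ ^ 3))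
    (measurable_const.indicator measurableSet_Icc) (fun z hz => ?_) (fun z hz => ?_)).trans ?_
  · rw [bk]
    split_ifs with h
    · rw [indicator_of_mem]
      refine abs_le.1 ?_
      rw [ha, le_div_iff₀ hl]
      have h2 := h.2
      rw [hv, abs_mul, abs_norm] at h2
      nlinarith [abs_inner_unit he z]
    · simp
  · rw [bk, if_neg (fun h => absurd h.1 (not_le.2 hz)), ENNReal.ofReal_zero]
  · rw [lintegral_indicator_const measurableSet_Icc, Real.volume_Icc,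
      ← ENNReal.ofReal_mul (by positivity), ← ENNReal.ofReal_mul (by positivity), ha]
    refine le_of_eq ?_
    congr 1
    field_simp
    ring

/-- kernel for the long jumps -/
def wk (v z : E) : ℝ :=
  if ‖z‖ ≤ 1 then (1 + ‖v‖) ^ (19 / 2 : ℝ) * (1 + ⟪v, z⟫ ^ 2)⁻¹ else 0

lemma wk_nonneg (v z : E) : 0 ≤ wk v z := by unfold wk; split_ifs <;> positivity

@[fun_prop] lemma Measurable.wk {α : Type*} [MeasurableSpace α] {a b : α → E}
    (ha : Measurable a) (hb : Measurable b) : Measurable fun x => wk (a x) (b x) := by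
  unfold C3.wk
  have h1 : MeasurableSet {x | ‖b x‖ ≤ 1} := measurableSet_le (by fun_prop) measurable_const
  refine Measurable.ite h1 ?_ measurable_const
  exact (Measurable.pow_const (by fun_prop) _).mul (by fun_prop)

lemma lint_cauchy {l : ℝ} (hl : 0 < l) :
    ∫⁻ t : ℝ, ENNReal.ofReal ((1 + (l * t) ^ 2)⁻¹) = ENNReal.ofReal (π / l) := by
  rw [← ofReal_integral_eq_lintegral_ofReal (integrable_inv_one_add_sq.comp_mul_left' hl.ne')
    (ae_of_all _ fun t => by positivity),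
    Measure.integral_comp_mul_left (fun x : ℝ => (1 + x ^ 2)⁻¹), integral_univ_inv_one_add_sq,
    abs_of_pos (inv_pos.2 hl), smul_eq_mul, div_eq_inv_mul]

lemma lint_wk (v : E) : ∫⁻ z, ENNReal.ofReal (wk v z)
    ≤ ENNReal.ofReal (6 * π ^ 2 * (1 + ‖v‖) ^ (17 / 2 : ℝ)) := by
  have hl : 0 < 1 + ‖v‖ := by positivity
  obtain ⟨e, he, hv⟩ := exists_dir v
  refine (cyl_upper he (s := 1) zero_le_one
    (φ := fun t => ENNReal.ofReal (3 * (1 + ‖v‖) ^ (19 / 2 : ℝ))
      * ENNReal.ofReal ((1 + ((1 + ‖v‖) * t) ^ 2)⁻¹)) (by fun_prop)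
    (fun z hz => ?_) (fun z hz => ?_)).trans ?_
  · rw [wk, if_pos hz, ← ENNReal.ofReal_mul (by positivity), hv, mul_comm 3, mul_assoc]
    refine ENNReal.ofReal_le_ofReal (mul_le_mul_of_nonneg_left ?_ (by positivity))
    rw [← div_eq_mul_inv, inv_eq_one_div, div_le_div_iff₀ (by positivity) (by positivity)]
    have h1 : ⟪z, e⟫ ^ 2 ≤ 1 := by
      rw [sq_le_one_iff_abs_le_one]; exact (abs_inner_unit he z).trans hz
    nlinarith [sq_nonneg ((1 - ‖v‖) * ⟪z, e⟫), sq_nonneg (‖v‖ * ⟪z, e⟫)]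
  · rw [wk, if_neg (not_le.2 hz), ENNReal.ofReal_zero]
  · rw [lintegral_const_mul _ (by fun_prop), lint_cauchy hl,
      ← ENNReal.ofReal_mul (by positivity), ← ENNReal.ofReal_mul (by positivity)]
    refine le_of_eq ?_
    congr 1
    rw [show (19 / 2 : ℝ) = 17 / 2 + 1 by norm_num, rpow_add_one hl.ne']
    field_simp
    ring

/-- constant for the short jumps -/
def c1 : ℝ := 250 * (2 ^ (19 / 2 : ℝ) * (1 / 5) ^ (-(7 / 2) : ℝ))

lemma c1_pos : 0 < c1 := by unfold c1; positivity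

lemma short_le {l d : ℝ} (hl : 0 ≤ l) (hd : 0 < d) {v z k : E} (h1 : l ≤ 2 * (1 + ‖v‖))
    (h2 : d ≤ ‖k‖) (h3 : ‖k‖ ≤ 5 * d) (h4 : ‖k‖ ≤ 1) (h5 : |⟪v, k⟫| ≤ 3 * ‖k‖)
    (h6 : ‖z‖ ≤ 2 * ‖k‖) (h7 : |⟪v, z⟫| ≤ 2 * ‖k‖) :
    l / d ^ 3 * (l ^ (19 / 2 : ℝ) * d ^ (-(7 / 2) : ℝ)) ≤ c1 * (bk v z k * ck v k) := by
  have hk : 0 < ‖k‖ := hd.trans_le h2
  rw [bk, ck, if_pos ⟨h6, h7⟩, if_pos ⟨h4, h5⟩]
  have a1 : l / d ^ 3 ≤ 250 * ((1 + ‖v‖) / ‖k‖ ^ 3) := by
    calc l / d ^ 3 ≤ 2 * (1 + ‖v‖) / (‖k‖ / 5) ^ 3 := by gcongr; linarith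
      _ = _ := by field_simp; norm_num
  have a2 : l ^ (19 / 2 : ℝ) ≤ 2 ^ (19 / 2 : ℝ) * (1 + ‖v‖) ^ (19 / 2 : ℝ) := by
    rw [← mul_rpow (by norm_num) (by positivity)]
    exact rpow_le_rpow hl h1 (by norm_num)
  have a3 : d ^ (-(7 / 2) : ℝ) ≤ (1 / 5) ^ (-(7 / 2) : ℝ) * ‖k‖ ^ (-(7 / 2) : ℝ) := by
    rw [← mul_rpow (by norm_num) hk.le]
    exact rpow_le_rpow_of_nonpos (by positivity) (by linarith) (by norm_num)
  calc _ ≤ 250 * ((1 + ‖v‖) / ‖k‖ ^ 3) * (2 ^ (19 / 2 : ℝ) * (1 + ‖v‖) ^ (19 / 2 : ℝ)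
        * ((1 / 5) ^ (-(7 / 2) : ℝ) * ‖k‖ ^ (-(7 / 2) : ℝ))) := by gcongr
    _ = _ := by rw [c1]; ring

/-- constant for the long jumps -/
def c2 : ℝ := 2 ^ (19 / 2 : ℝ) * ((1 / 64) ^ (-(3 / 4) : ℝ) * 195)

lemma c2_pos : 0 < c2 := by unfold c2; positivity

lemma long_le {l D : ℝ} (hl : 0 ≤ l) (hD : 1 / 64 ≤ D) {v z : E} (h1 : l ≤ 2 * (1 + ‖v‖))
    (h2 : ‖z‖ ≤ 1) (h3 : 1 + ⟪v, z⟫ ^ 2 ≤ 195 * D) :
    l ^ (19 / 2 : ℝ) * D ^ (-(7 / 4) : ℝ) ≤ c2 * wk v z := by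
  have h0 : 0 < D := by linarith
  rw [wk, if_pos h2]
  have a2 : l ^ (19 / 2 : ℝ) ≤ 2 ^ (19 / 2 : ℝ) * (1 + ‖v‖) ^ (19 / 2 : ℝ) := by
    rw [← mul_rpow (by norm_num) (by positivity)]
    exact rpow_le_rpow hl h1 (by norm_num)
  have a3 : D ^ (-(3 / 4) : ℝ) ≤ (1 / 64) ^ (-(3 / 4) : ℝ) :=
    rpow_le_rpow_of_nonpos (by norm_num) hD (by norm_num)
  have a4 : D⁻¹ ≤ 195 * (1 + ⟪v, z⟫ ^ 2)⁻¹ := by
    rw [← div_eq_mul_inv, inv_eq_one_div, div_le_div_iff₀ h0 (by positivity)]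
    linarith
  rw [show (-(7 / 4) : ℝ) = -(3 / 4) + -1 by norm_num, rpow_add h0, rpow_neg_one]
  calc _ ≤ 2 ^ (19 / 2 : ℝ) * (1 + ‖v‖) ^ (19 / 2 : ℝ)
        * ((1 / 64) ^ (-(3 / 4) : ℝ) * (195 * (1 + ⟪v, z⟫ ^ 2)⁻¹)) := by gcongr
    _ = _ := by rw [c2]; ring

/-- chaining integrand -/
def HK (g : E → ℝ) (v z k : E) : ℝ≥0∞ :=
  ENNReal.ofReal (bk v z k * (ck v k * (g (v + k) - g v) ^ 2))

/-- majorant of the jump integrand -/
def MM (g : E → ℝ) (v z : E) : ℝ≥0∞ :=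
  (∫⁻ k, HK g v z k) + ENNReal.ofReal (wk v z * g v ^ 2)

lemma point_long (g : E → ℝ) {v z : E} (hz : ‖z‖ ≤ 1) (hD : 1 / 64 ≤ ‖z‖ ^ 2 + ⟪v, z⟫ ^ 2) :
    jk v z * (g (v + z) - g v) ^ 2
      ≤ 2 * c2 * (wk v z * g v ^ 2 + wk (v + z) z * g (v + z) ^ 2) := by
  have hl : 0 ≤ 1 + ‖v‖ := by positivity
  have b1 : jk v z ≤ c2 * wk v z :=
    long_le hl hD (by linarith) hz (by nlinarith [sq_nonneg ‖z‖, sq_nonneg ⟪v, z⟫])
  have b2 : jk v z ≤ c2 * wk (v + z) z := by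
    refine long_le hl hD ?_ hz ?_
    · have := norm_sub_le (v + z) z
      rw [add_sub_cancel_right] at this
      linarith [norm_nonneg (v + z)]
    · rw [inner_add_left, real_inner_self_eq_norm_sq]
      have h1 : ‖z‖ ^ 2 ≤ 1 := by nlinarith [norm_nonneg z]
      nlinarith [sq_nonneg ‖z‖, sq_nonneg ⟪v, z⟫, sq_nonneg (⟪v, z⟫ - ‖z‖ ^ 2)]
  have b0 : 0 ≤ jk v z := by unfold jk; positivity
  calc _ ≤ jk v z * (2 * g v ^ 2 + 2 * g (v + z) ^ 2) := by
        gcongr; nlinarith [sq_nonneg (g (v + z) + g v)]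
    _ = 2 * (jk v z * g v ^ 2 + jk v z * g (v + z) ^ 2) := by ring
    _ ≤ 2 * (c2 * wk v z * g v ^ 2 + c2 * wk (v + z) z * g (v + z) ^ 2) := by gcongr
    _ = _ := by ring

lemma point_short {g : E → ℝ} (hg : Measurable g) {v z : E} (hz : z ≠ 0)
    (hD : ‖z‖ ^ 2 + ⟪v, z⟫ ^ 2 < 1 / 64) :
    ENNReal.ofReal (jk v z * (g (v + z) - g v) ^ 2)
      ≤ ENNReal.ofReal (2 * c1) * ((∫⁻ k, HK g v z k) + ∫⁻ k, HK g (v + z) z k) := by
  have hl : 0 < 1 + ‖v‖ := by positivity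
  have hn : 0 < ‖z‖ := norm_pos_iff.2 hz
  obtain ⟨d, hd, hdd⟩ : ∃ d : ℝ, 0 < d ∧ d ^ 2 = ‖z‖ ^ 2 + ⟪v, z⟫ ^ 2 :=
    ⟨√(‖z‖ ^ 2 + ⟪v, z⟫ ^ 2), by positivity, sq_sqrt (by positivity)⟩
  have d1 : d ≤ 1 / 8 := by nlinarith
  have d2 : ‖z‖ ≤ d := by nlinarith [sq_nonneg ⟪v, z⟫]
  have d3 : |⟪v, z⟫| ≤ d := abs_le_of_sq_le_sq (by nlinarith) hd.le
  have hj : jk v z = (1 + ‖v‖) ^ (19 / 2 : ℝ) * d ^ (-(7 / 2) : ℝ) := by
    rw [jk, ← hdd, ← rpow_natCast, ← rpow_mul hd.le]; norm_num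
  have b0 : 0 ≤ jk v z := by unfold jk; positivity
  obtain ⟨e, he, hv⟩ := exists_dir v
  have mH : ∀ x : E, Measurable fun k => HK g x z k := fun x => by unfold HK; fun_prop
  rw [← lintegral_sub_right_eq_self (fun k => HK g (v + z) z k) z, ← lintegral_add_left (mH v),
    ← lintegral_const_mul' _ _ ENNReal.ofReal_ne_top]
  refine le_trans ?_ (cyl_lower he (a := d / (1 + ‖v‖)) hd.le
    (Y := ENNReal.ofReal ((1 + ‖v‖) / d ^ 3 * jk v z * (g (v + z) - g v) ^ 2)) fun k k1 k2 => ?_)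
  · rw [← ENNReal.ofReal_mul (by positivity)]
    refine ENNReal.ofReal_le_ofReal ?_
    calc _ ≤ 8 * π * (jk v z * (g (v + z) - g v) ^ 2) :=
          le_mul_of_one_le_left (by positivity) (by linarith [pi_gt_three])
      _ = _ := by field_simp
  · rw [le_div_iff₀ hl] at k1
    have k3 : |⟪v, k⟫| ≤ d := by
      rw [hv, abs_mul, abs_norm]; nlinarith [abs_nonneg ⟪k, e⟫]
    have k4 : 2 * d ≤ ‖k‖ := k2.1.le.trans (perp_le_norm he k)
    have k5 : ‖k‖ ≤ 4 * d := by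
      nlinarith [norm_le_perp he k, k2.2, abs_nonneg ⟪k, e⟫, norm_nonneg v]
    have k6 : d ≤ ‖k - z‖ := by linarith [norm_sub_norm_le k z]
    have k7 : ‖k - z‖ ≤ 5 * d := by linarith [norm_sub_le k z]
    have b1 := short_le (v := v) (z := z) (k := k) hl.le hd (by linarith) (by linarith)
      (by linarith) (by linarith) (by linarith) (by linarith) (by linarith)
    have b2 := short_le (v := v + z) (z := z) (k := k - z) hl.le hd
      (by
        have := norm_sub_le (v + z) z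
        rw [add_sub_cancel_right] at this
        linarith [norm_nonneg (v + z)]) k6 k7 (by linarith)
      (by
        rw [inner_add_left, inner_sub_right]
        have h1 := abs_add_le (⟪v, k⟫ - ⟪v, z⟫) ⟪z, k - z⟫
        have h2 := abs_sub ⟪v, k⟫ ⟪v, z⟫
        have h3 := abs_real_inner_le_norm z (k - z)
        nlinarith [norm_nonneg (k - z)]) (by linarith)
      (by
        rw [inner_add_left, real_inner_self_eq_norm_sq]
        have h1 := abs_add_le ⟪v, z⟫ (‖z‖ ^ 2)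
        rw [abs_of_nonneg (sq_nonneg ‖z‖)] at h1
        nlinarith)
    rw [← hj] at b1 b2
    have p1 := mul_nonneg (bk_nonneg v z k) (ck_nonneg v k)
    have p2 := mul_nonneg (bk_nonneg (v + z) z (k - z)) (ck_nonneg (v + z) (k - z))
    simp only [HK, ← mul_assoc]
    rw [← ENNReal.ofReal_add (by positivity) (by positivity),
      ← ENNReal.ofReal_mul (by linarith [c1_pos]), show v + z + (k - z) = v + k by abel]
    refine ENNReal.ofReal_le_ofReal ?_
    set κ := (1 + ‖v‖) / d ^ 3 * jk v z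
    have hκ : 0 ≤ κ := by positivity
    calc _ ≤ κ * (2 * (g (v + k) - g v) ^ 2 + 2 * (g (v + k) - g (v + z)) ^ 2) := by
          gcongr; nlinarith [sq_nonneg (g (v + k) - g v + (g (v + k) - g (v + z)))]
      _ = 2 * (κ * (g (v + k) - g v) ^ 2 + κ * (g (v + k) - g (v + z)) ^ 2) := by ring
      _ ≤ 2 * (c1 * (bk v z k * ck v k) * (g (v + k) - g v) ^ 2
          + c1 * (bk (v + z) z (k - z) * ck (v + z) (k - z)) * (g (v + k) - g (v + z)) ^ 2) := by
          gcongr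
      _ = _ := by ring

lemma point {g : E → ℝ} (hg : Measurable g) (v : E) {z : E} (hz : ‖z‖ ≤ 1) :
    ENNReal.ofReal (jk v z * (g (v + z) - g v) ^ 2)
      ≤ ENNReal.ofReal (2 * c1 + 2 * c2) * (MM g v z + MM g (v + z) z) := by
  by_cases h0 : z = 0
  · simp [h0]
  by_cases hD : 1 / 64 ≤ ‖z‖ ^ 2 + ⟪v, z⟫ ^ 2
  · refine (ENNReal.ofReal_le_ofReal (point_long g hz hD)).trans ?_
    rw [ENNReal.ofReal_mul (by linarith [c2_pos])]
    refine mul_le_mul' (ENNReal.ofReal_le_ofReal (by linarith [c1_pos])) ?_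
    exact ENNReal.ofReal_add_le.trans (add_le_add le_add_self le_add_self)
  · refine (point_short hg h0 (not_le.1 hD)).trans ?_
    exact mul_le_mul' (ENNReal.ofReal_le_ofReal (by linarith [c2_pos]))
      (add_le_add le_self_add le_self_add)

lemma measurable_MM {g : E → ℝ} (hg : Measurable g) :
    Measurable fun q : E × E => MM g q.1 q.2 := by
  unfold MM
  refine Measurable.add ?_ (by fun_prop)
  exact Measurable.lintegral_prod_right' (f := fun x : (E × E) × E => HK g x.1.1 x.1.2 x.2)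
    (by unfold HK; fun_prop)

lemma lint_MM {g : E → ℝ} (hg : Measurable g) : ∫⁻ v, ∫⁻ z, MM g v z
    ≤ ENNReal.ofReal (64 * π) * GC g + ENNReal.ofReal (6 * π ^ 2) * NW g := by
  rw [GC, NW, ← lintegral_const_mul' _ _ ENNReal.ofReal_ne_top,
    ← lintegral_const_mul' _ _ ENNReal.ofReal_ne_top, ← lintegral_add_right _ (by
      exact Measurable.const_mul (Measurable.ennreal_ofReal
        ((Measurable.pow_const (by fun_prop) _).mul (by fun_prop))) _)]
  refine lintegral_mono fun v => ?_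
  simp only [MM]
  rw [lintegral_add_right _ (by fun_prop)]
  refine add_le_add ?_ ?_
  · rw [lintegral_lintegral_swap (by unfold HK; fun_prop),
      ← lintegral_const_mul' _ _ ENNReal.ofReal_ne_top]
    refine lintegral_mono fun k => ?_
    simp only [HK, ENNReal.ofReal_mul (bk_nonneg _ _ _)]
    rw [lintegral_mul_const _ (by fun_prop)]
    exact mul_le_mul_left (lint_bk v k) _
  · simp only [ENNReal.ofReal_mul (wk_nonneg _ _)]
    rw [lintegral_mul_const _ (by fun_prop), ← ENNReal.ofReal_mul (by positivity), ← mul_assoc,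
      ENNReal.ofReal_mul (by positivity)]
    exact mul_le_mul_left (lint_wk v) _

lemma NJ_le : ∃ C : ℝ≥0∞, C ≠ ⊤ ∧ ∀ g : E → ℝ, Measurable g → NJ g ≤ C * (GC g + NW g) := by
  refine ⟨ENNReal.ofReal (2 * c1 + 2 * c2) * (2 * (ENNReal.ofReal (64 * π)
    + ENNReal.ofReal (6 * π ^ 2))), by finiteness, fun g hg => ?_⟩
  have m1 := measurable_MM hg
  have m2 : Measurable fun q : E × E => MM g (q.1 + q.2) q.2 :=
    m1.comp (f := fun q : E × E => (q.1 + q.2, q.2)) (by fun_prop)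
  have hs : ∫⁻ v, ∫⁻ z, MM g (v + z) z = ∫⁻ v, ∫⁻ z, MM g v z := by
    rw [lintegral_lintegral_swap (by exact m2.aemeasurable),
      lintegral_lintegral_swap (f := fun v z => MM g v z) (by exact m1.aemeasurable)]
    exact lintegral_congr fun z => lintegral_add_right_eq_self (fun v => MM g v z) z
  calc NJ g ≤ ∫⁻ v, ENNReal.ofReal (2 * c1 + 2 * c2)
        * ((∫⁻ z, MM g v z) + ∫⁻ z, MM g (v + z) z) := by
        refine lintegral_mono fun v => ?_
        simp only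
        rw [← lintegral_add_left (f := fun z => MM g v z)
            (m1.comp (f := fun z : E => (v, z)) (by fun_prop)),
          ← lintegral_const_mul' _ _ ENNReal.ofReal_ne_top]
        refine le_trans (setLIntegral_mono' Metric.isOpen_ball.measurableSet fun z hz => ?_)
          (setLIntegral_le_lintegral _ _)
        exact point hg v (mem_ball_zero_iff.1 hz).le
    _ = ENNReal.ofReal (2 * c1 + 2 * c2) * (2 * ∫⁻ v, ∫⁻ z, MM g v z) := by
        rw [lintegral_const_mul' _ _ ENNReal.ofReal_ne_top,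
          lintegral_add_left (f := fun v => ∫⁻ z, MM g v z) m1.lintegral_prod_right', hs,
          ← two_mul]
    _ ≤ _ := by
        rw [mul_assoc, mul_assoc]
        gcongr
        refine (lint_MM hg).trans ?_
        rw [add_mul]
        exact add_le_add (mul_le_mul_right le_self_add _) (mul_le_mul_right le_add_self _)

end Pool.Agent.MP_187b32_an.C3
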