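import Pool.Agent.MP_187b32_an.C3.Expand

/-! Lower bound of the Gaussian jump functional by jumps in a cone. -/

open MeasureTheory Real Set
open scoped ENNReal RealInnerProductSpace

noncomputable section

namespace Pool.Agent.MP_187b32_an.C3

open Pool.Agent.MP_187b32_an.Coll
open Pool.Agent.MP_187b32_an.Geo (perp cyl norm_sq_eq_perp)

lemma phi_anti {ε ε' : ℝ} (h : ε' ≤ ε) (t : ℝ) : phi ε t ≤ phi ε' t :=
  indicator_le_indicator_of_subset (show win ε ⊆ win ε' from fun _ hs => ⟨h.trans hs.1, hs.2⟩)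
    (fun s => rpow_nonneg (abs_nonneg s) _) t

lemma phi_zero_le (t : ℝ) : ∃ n : ℕ, phi 0 t ≤ phi (1 / (n + 2)) t := by
  by_cases ht : t = 0
  · refine ⟨0, (phi_le 0 t).trans ?_⟩
    rw [ht, abs_zero, zero_rpow (by norm_num)]
    exact phi_nonneg _ _
  · obtain ⟨n, hn⟩ := exists_nat_one_div_lt (abs_pos.2 ht)
    refine ⟨n, ?_⟩
    by_cases h1 : |t| ≤ 1
    · have : t ∈ win (1 / (n + 2)) :=
        ⟨le_trans (by gcongr; norm_num) hn.le, h1⟩
      rw [phi, phi, indicator_of_mem this]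
      exact phi_le 0 t
    · rw [phi_eq_zero (not_le.1 h1)]
      exact phi_nonneg _ _

lemma lint_mm_zero {F : E × E × S2 → ℝ≥0∞} (hF : Measurable F) {B : ℝ≥0∞}
    (h : ∀ ε : ℝ, 0 < ε → ε ≤ 1 / 2 → ∫⁻ p, F p ∂mm ε ≤ B) : ∫⁻ p, F p ∂mm 0 ≤ B := by
  have hmono : Monotone fun (n : ℕ) (p : E × E × S2) =>
      ENNReal.ofReal (kc (1 / (n + 2)) p) * F p := fun m n hmn p => by
    refine mul_le_mul_left (ENNReal.ofReal_le_ofReal ?_) _
    refine mul_le_mul_of_nonneg_left (phi_anti ?_ _) (by positivity)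
    gcongr
  rw [lint_mm 0 hF]
  refine (lintegral_mono (g := fun p => ⨆ n : ℕ, ENNReal.ofReal (kc (1 / (n + 2)) p) * F p)
    fun p => ?_).trans ?_
  · obtain ⟨n, hn⟩ := phi_zero_le (rho p)
    refine le_iSup_of_le n (mul_le_mul_left (ENNReal.ofReal_le_ofReal ?_) _)
    exact mul_le_mul_of_nonneg_left hn (by positivity)
  · rw [lintegral_iSup (fun n => by fun_prop) hmono]
    refine iSup_le fun n => ?_
    rw [← lint_mm _ hF]
    refine h _ (by positivity) ?_
    gcongr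
    linarith [Nat.cast_nonneg (α := ℝ) n]

lemma shell {b c : ℝ} (hb : 0 ≤ b) (X : ℝ≥0∞) :
    ENNReal.ofReal (2 * π * b * (c - b)) * X
      ≤ ∫⁻ r in Ioi (0 : ℝ), ENNReal.ofReal (2 * π * r) * (Ioo b c).indicator (fun _ => X) r := by
  calc _ = ∫⁻ r in Ioi (0 : ℝ), (Ioo b c).indicator (fun _ => ENNReal.ofReal (2 * π * b) * X) r := by
        rw [lintegral_indicator_const measurableSet_Ioo, Measure.restrict_apply measurableSet_Ioo,
          inter_eq_left.2 (show Ioo b c ⊆ Ioi 0 from fun r hr => hb.trans_lt hr.1), Real.volume_Ioo,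
          ENNReal.ofReal_mul (by positivity)]
        ring
    _ ≤ _ := lintegral_mono fun r => by
        by_cases hr : r ∈ Ioo b c
        · simp only [indicator_of_mem hr]
          gcongr
          exact hr.1.le
        · simp [indicator_of_notMem hr]

lemma norm_le_perp {e : E} (he : ‖e‖ = 1) (u : E) : ‖u‖ ≤ |⟪u, e⟫| + ‖perp e u‖ := by
  calc ‖u‖ = ‖⟪u, e⟫ • e + perp e u‖ := by simp [perp]
    _ ≤ _ := (norm_add_le _ _).trans (by rw [norm_smul, he, mul_one, Real.norm_eq_abs])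

lemma perp_le_norm {e : E} (he : ‖e‖ = 1) (u : E) : ‖perp e u‖ ≤ ‖u‖ :=
  abs_le_of_sq_le_sq' (by rw [norm_sq_eq_perp he u]; nlinarith [sq_nonneg ⟪u, e⟫])
    (norm_nonneg _) |>.2

lemma perp_sub (e u w : E) : perp e (u - w) = perp e u - perp e w := by
  simp only [perp, inner_sub_left]; module

lemma sM_lower {x : E} (h : ‖x‖ ≤ 11) : exp (-31) ≤ sM x := by
  rw [sM, exp_le_exp]
  nlinarith [norm_nonneg x]

/-- the constant of the cone bound -/
def c0 : ℝ := 2 * (1 / 8) ^ (19 / 2 : ℝ) * (exp (-31) * exp (-31))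

lemma c0_pos : 0 < c0 := by unfold c0; positivity

lemma cone_inner {g : E → ℝ} (hg : Measurable g) (v : E) (o : S2) (ha : |⟪v, (o : E)⟫| ≤ 3) :
    ∫⁻ r : ℝ, ENNReal.ofReal (c0 * ((1 + ‖v‖) ^ (19 / 2 : ℝ) * phi 0 r
      * (g (v + r • (o : E)) - g v) ^ 2))
      ≤ ∫⁻ w, ENNReal.ofReal (kc 0 (v, w, o))
        * ENNReal.ofReal ((g (pv v w o) - g v) ^ 2 * (sM w * sM (pw v w o))) := by
  have ho := norm_coe o
  obtain ⟨s, hs1, hs5, hs⟩ : ∃ s : ℝ, 1 ≤ s ∧ s ≤ 5 ∧ ∀ w : E, ‖perp o w‖ ∈ Ioo s (s + 1) →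
      1 / 8 * (1 + ‖v‖) ≤ ‖v - w‖ := by
    have h1 := norm_le_perp ho v
    have h2 : ∀ w : E, ‖perp o v - perp o w‖ ≤ ‖v - w‖ := fun w => by
      rw [← perp_sub]; exact perp_le_norm ho _
    by_cases hv : 4 ≤ ‖perp o v‖
    · refine ⟨1, le_rfl, by norm_num, fun w hw => ?_⟩
      linarith [h2 w, norm_sub_norm_le (perp o v) (perp o w), hw.2]
    · refine ⟨5, by norm_num, le_rfl, fun w hw => ?_⟩
      linarith [h2 w, norm_sub_norm_le (perp o w) (perp o v), hw.1,
        norm_sub_rev (perp o w) (perp o v)]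
  set a := ⟪v, (o : E)⟫ with haa
  set Ψ : ℝ → ℝ≥0∞ := fun r => ENNReal.ofReal (c0 * ((1 + ‖v‖) ^ (19 / 2 : ℝ) * phi 0 r
      * (g (v + r • (o : E)) - g v) ^ 2)) with hΨ
  have mΨ : Measurable Ψ := by rw [hΨ]; fun_prop
  have mΦ : Measurable (Function.uncurry fun t r : ℝ =>
      (Ioo s (s + 1)).indicator (fun _ => Ψ (t - a)) r) :=
    Measurable.indicator (s := {q : ℝ × ℝ | q.2 ∈ Ioo s (s + 1)})
      (f := fun q : ℝ × ℝ => Ψ (q.1 - a)) (by fun_prop) (measurable_snd measurableSet_Ioo)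
  calc ∫⁻ r, Ψ r = ∫⁻ t, Ψ (t - a) := (lintegral_sub_right_eq_self Ψ a).symm
    _ ≤ ∫⁻ t, ∫⁻ r in Ioi (0 : ℝ), ENNReal.ofReal (2 * π * r)
        * (Ioo s (s + 1)).indicator (fun _ => Ψ (t - a)) r := by
        refine lintegral_mono fun t => le_trans ?_ (shell (by linarith) _)
        refine le_mul_of_one_le_left' (ENNReal.one_le_ofReal.2 ?_)
        nlinarith [pi_gt_three]
    _ = ∫⁻ w : E, (Ioo s (s + 1)).indicator (fun _ => Ψ (⟪w, (o : E)⟫ - a)) ‖perp o w‖ :=
        (cyl ho _ mΦ).symm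
    _ ≤ _ := lintegral_mono fun w => by
        by_cases hw : ‖perp o w‖ ∈ Ioo s (s + 1)
        · simp only [indicator_of_mem hw, hΨ]
          have hr : rho (v, w, o) = -(⟪w, (o : E)⟫ - a) := by
            simp only [rho, inner_sub_left, haa]; ring
          have hp : pv v w o = v + (⟪w, (o : E)⟫ - a) • (o : E) := by
            simp only [pv, inner_sub_left, haa]; module
          rw [← ENNReal.ofReal_mul (kc_nonneg _ _), kc, hr, phi_neg, hp]
          refine ENNReal.ofReal_le_ofReal ?_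
          by_cases h1 : 1 < |⟪w, (o : E)⟫ - a|
          · simp [phi_eq_zero h1]
          have h2 : ‖w‖ ≤ 10 := by
            have := abs_add_le (⟪w, (o : E)⟫ - a) a
            rw [sub_add_cancel] at this
            linarith [norm_le_perp ho w, hw.2]
          have h3 : ‖pw v w o‖ ≤ 11 := by
            have := norm_pw_sub v w o
            rw [show ⟪v - w, (o : E)⟫ = -(⟪w, (o : E)⟫ - a) from hr, abs_neg] at this
            linarith [norm_sub_norm_le (pw v w o) w]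
          have h4 := sM_lower (x := w) (by linarith)
          have h5 := sM_lower h3
          have h6 : (1 / 8 : ℝ) ^ (19 / 2 : ℝ) * (1 + ‖v‖) ^ (19 / 2 : ℝ)
              ≤ ‖v - w‖ ^ (19 / 2 : ℝ) := by
            rw [← mul_rpow (by norm_num) (by positivity)]
            exact rpow_le_rpow (by positivity) (hs w hw) (by norm_num)
          have h7 := phi_nonneg 0 (⟪w, (o : E)⟫ - a)
          calc _ = 2 * ((1 / 8 : ℝ) ^ (19 / 2 : ℝ) * (1 + ‖v‖) ^ (19 / 2 : ℝ))
                * phi 0 (⟪w, (o : E)⟫ - a) * ((g (v + (⟪w, (o : E)⟫ - a) • (o : E)) - g v) ^ 2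
                  * (exp (-31) * exp (-31))) := by rw [c0]; ring
            _ ≤ _ := by gcongr; exact (sM_pos _).le
        · simp [indicator_of_notMem hw]

/-- cone kernel -/
def ck (v z : E) : ℝ :=
  if ‖z‖ ≤ 1 ∧ |⟪v, z⟫| ≤ 3 * ‖z‖ then (1 + ‖v‖) ^ (19 / 2 : ℝ) * ‖z‖ ^ (-(7 / 2) : ℝ) else 0

lemma ck_nonneg (v z : E) : 0 ≤ ck v z := by unfold ck; split_ifs <;> positivity

@[fun_prop] lemma Measurable.ck {α : Type*} [MeasurableSpace α] {a b : α → E}
    (ha : Measurable a) (hb : Measurable b) : Measurable fun x => ck (a x) (b x) := by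
  unfold C3.ck
  have h1 : MeasurableSet {x | ‖b x‖ ≤ 1} := measurableSet_le (by fun_prop) measurable_const
  have h2 : MeasurableSet {x | |⟪a x, b x⟫| ≤ 3 * ‖b x‖} :=
    measurableSet_le (by fun_prop) (by fun_prop)
  refine Measurable.ite (h1.inter h2) ?_ measurable_const
  exact (Measurable.pow_const (by fun_prop) _).mul (Measurable.pow_const (by fun_prop) _)

/-- cone jump functional -/
def GC (g : E → ℝ) : ℝ≥0∞ := ∫⁻ v, ∫⁻ z, ENNReal.ofReal (ck v z * (g (v + z) - g v) ^ 2)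

lemma sq_ck (v : E) (o : S2) (r : ℝ) :
    r ^ 2 * ck v (r • (o : E)) ≤ if |⟪v, (o : E)⟫| ≤ 3 then (1 + ‖v‖) ^ (19 / 2 : ℝ) * phi 0 r
      else 0 := by
  by_cases hr : r = 0
  · have := phi_nonneg 0 r
    rw [show r ^ 2 = 0 by simp [hr], zero_mul]; split_ifs <;> positivity
  have h0 : 0 < |r| := abs_pos.2 hr
  have hn : ‖r • (o : E)‖ = |r| := by rw [norm_smul, norm_coe, mul_one, Real.norm_eq_abs]
  rw [ck, hn, inner_smul_right, abs_mul]
  by_cases h : |r| ≤ 1 ∧ |r| * |⟪v, (o : E)⟫| ≤ 3 * |r|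
  · have h1 : r ∈ win 0 := ⟨h0.le, h.1⟩
    rw [if_pos h, if_pos (by nlinarith [h.2]), phi, indicator_of_mem h1, ← sq_abs,
      ← rpow_natCast, mul_left_comm, ← rpow_add h0]
    norm_num
  · have := phi_nonneg 0 r
    rw [if_neg h, mul_zero]; split_ifs <;> positivity

lemma GC_le : ∃ C : ℝ≥0∞, C ≠ ⊤ ∧ ∀ g : E → ℝ, Measurable g → GC g ≤ C * GG 0 g := by
  refine ⟨ENNReal.ofReal c0⁻¹, ENNReal.ofReal_ne_top, fun g hg => ?_⟩
  have hm : Measurable fun p : E × E × S2 => ENNReal.ofReal (kc 0 p)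
      * ENNReal.ofReal ((g (pv p.1 p.2.1 p.2.2) - g p.1) ^ 2
        * (sM p.2.1 * sM (pw p.1 p.2.1 p.2.2))) := by fun_prop
  rw [GG, lint_mm 0 (by fun_prop), lintegral_mu3 _ hm,
    ← lintegral_const_mul' _ _ ENNReal.ofReal_ne_top]
  refine lintegral_mono fun v => ?_
  simp only
  rw [lintegral_lintegral_swap (by exact (hm.comp measurable_prodMk_left).aemeasurable)]
  refine (le_mul_of_one_le_left' one_le_two).trans ?_
  rw [← lintegral_polar_line _ (by fun_prop), ← lintegral_const_mul' _ _ ENNReal.ofReal_ne_top]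
  refine lintegral_mono fun o => ?_
  simp only
  by_cases ha : |⟪v, (o : E)⟫| ≤ 3
  · refine le_trans ?_ (mul_le_mul_right (cone_inner hg v o ha) _)
    rw [← lintegral_const_mul' _ _ ENNReal.ofReal_ne_top]
    refine lintegral_mono fun r => ?_
    simp only
    rw [← ENNReal.ofReal_mul (sq_nonneg _), ← ENNReal.ofReal_mul (inv_pos.2 c0_pos).le,
      inv_mul_cancel_left₀ c0_pos.ne', ← mul_assoc]
    have := sq_ck v o r
    rw [if_pos ha] at this
    exact ENNReal.ofReal_le_ofReal (mul_le_mul_of_nonneg_right this (sq_nonneg _))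
  · refine le_trans (le_of_eq ?_) zero_le
    refine (lintegral_congr fun r => ?_).trans lintegral_zero
    have := sq_ck v o r
    rw [if_neg ha] at this
    rw [← ENNReal.ofReal_mul (sq_nonneg _), ← mul_assoc]
    exact ENNReal.ofReal_of_nonpos (mul_nonpos_of_nonpos_of_nonneg this (sq_nonneg _))

end Pool.Agent.MP_187b32_an.C3
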