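import Pool.Agent.MP_187b32_an.C3.Chain
import Pool.Agent.MP_187b32_an.Coll.Nice

/-! The coercivity estimate C3: the anisotropic norm is bounded by dissipation plus mass. -/

open MeasureTheory Real Set
open scoped ENNReal RealInnerProductSpace

noncomputable section

namespace Pool.Agent.MP_187b32_an.C3

open Pool.Agent.MP_187b32_an.Coll

/-- bounded by dissipation plus squared L2 norm -/
def Bd (X : (E → ℝ) → ℝ≥0∞) : Prop :=
  ∃ C : ℝ≥0∞, C ≠ ⊤ ∧ ∀ g, Dec g → X g ≤ C * (DL g + L2L g)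

lemma Bd.mono {X Y : (E → ℝ) → ℝ≥0∞} (h : Bd Y) (hXY : ∀ g, Dec g → X g ≤ Y g) : Bd X :=
  let ⟨C, hC, h⟩ := h
  ⟨C, hC, fun g hg => (hXY g hg).trans (h g hg)⟩

lemma Bd.add {X Y : (E → ℝ) → ℝ≥0∞} (hX : Bd X) (hY : Bd Y) : Bd fun g => X g + Y g :=
  let ⟨C, hC, h⟩ := hX
  let ⟨C', hC', h'⟩ := hY
  ⟨C + C', by finiteness, fun g hg => by rw [add_mul]; exact add_le_add (h g hg) (h' g hg)⟩

lemma Bd.mul {X : (E → ℝ) → ℝ≥0∞} (hX : Bd X) {c : ℝ≥0∞} (hc : c ≠ ⊤) : Bd fun g => c * X g :=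
  let ⟨C, hC, h⟩ := hX
  ⟨c * C, by finiteness, fun g hg => by rw [mul_assoc]; exact mul_le_mul_right (h g hg) _⟩

lemma bd_DL : Bd DL := ⟨1, ENNReal.one_ne_top, fun g _ => by rw [one_mul]; exact le_self_add⟩

lemma bd_L2 : Bd L2L := ⟨1, ENNReal.one_ne_top, fun g _ => by rw [one_mul]; exact le_add_self⟩

lemma bd_NW : Bd NW := by
  obtain ⟨C, hC, h⟩ := expand
  obtain ⟨C', hC', h'⟩ := NW_le_TT
  obtain ⟨η, hη, hc⟩ : ∃ η : ℝ, 0 < η ∧ 2 * (C' * C) * ENNReal.ofReal η ≤ 1 := by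
    have h0 : 0 ≤ (2 * (C' * C)).toReal := ENNReal.toReal_nonneg
    refine ⟨((2 * (C' * C)).toReal + 1)⁻¹, by positivity, ?_⟩
    nth_rewrite 1 [← ENNReal.ofReal_toReal (a := 2 * (C' * C)) (by finiteness)]
    rw [← ENNReal.ofReal_mul h0, ENNReal.ofReal_le_one, ← div_eq_mul_inv,
      div_le_one (by positivity)]
    linarith
  set κ := ENNReal.ofReal ((η⁻¹ ^ 2) ^ 8) with hκ
  have hκ' : κ ≠ ⊤ := ENNReal.ofReal_ne_top
  refine ((bd_DL.add (bd_L2.mul (c := C * κ + C + 1) (by finiteness))).mul (c := 2 * C')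
    (by finiteness)).mono fun g hg => ?_
  have h1 : TT (1 / 2) g ≤ DL g + C * N8 g + C * L2L g :=
    le_add_self.trans (h (1 / 2) (by norm_num) g hg)
  rw [← ENNReal.add_le_add_iff_right (NW_ne_top hg), ← two_mul]
  calc 2 * NW g ≤ 2 * (C' * (DL g + C * (ENNReal.ofReal η * NW g + κ * L2L g) + C * L2L g
        + L2L g)) := by
        refine mul_le_mul_right ((h' (1 / 2) le_rfl g hg.1).trans ?_) _
        have := N8_le hη g hg.1
        exact mul_le_mul_right (add_le_add (h1.trans (by gcongr)) le_rfl) _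
    _ = 2 * C' * (DL g + (C * κ + C + 1) * L2L g) + 2 * (C' * C) * ENNReal.ofReal η * NW g := by
        ring
    _ ≤ _ := add_le_add le_rfl (mul_le_of_le_one_left' hc)

lemma bd_N8 : Bd N8 :=
  ((bd_NW.mul ENNReal.ofReal_ne_top).add (bd_L2.mul ENNReal.ofReal_ne_top)).mono
    fun g hg => N8_le one_pos g hg.1

lemma bd_GG : Bd (GG 0) := by
  obtain ⟨C, hC, h⟩ := expand
  refine ((bd_DL.add (bd_N8.mul hC)).add (bd_L2.mul hC)).mono fun g hg => ?_
  have hm := hg.1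
  exact lint_mm_zero (by fun_prop) fun ε hε _ => le_self_add.trans (h ε hε g hg)

lemma bd_NJ : Bd NJ := by
  obtain ⟨C, hC, h⟩ := GC_le
  obtain ⟨C', hC', h'⟩ := NJ_le
  refine (((bd_GG.mul hC).add bd_NW).mul hC').mono fun g hg => (h' g hg.1).trans ?_
  exact mul_le_mul_right (add_le_add (h g hg.1) le_rfl) _

/-- C3 for measurable functions with decay of order ten -/
theorem c3_dec : ∃ C : ℝ, 0 < C ∧ ∀ g : E → ℝ, Dec g →
    NL g ≤ ENNReal.ofReal C * (DL g + L2L g) := by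
  obtain ⟨C, hC, h⟩ := bd_NJ.add bd_NW
  refine ⟨C.toReal + 1, by positivity, fun g hg => (h g hg).trans (mul_le_mul_left ?_ _)⟩
  nth_rewrite 1 [← ENNReal.ofReal_toReal hC]
  exact ENNReal.ofReal_le_ofReal (by linarith)

/-- C3 -/
theorem c3 : C3Stmt :=
  let ⟨C, hC, h⟩ := c3_dec
  ⟨C, hC, fun g K hg => h g ⟨hg.measurable, K, hg.1⟩⟩

end Pool.Agent.MP_187b32_an.C3
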