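import Pool.Agent.MP_187b32_an.C3.Bounds

/-! The first order term of the cross product and the lower bound of the multiplier. -/

open MeasureTheory Real Set
open scoped ENNReal RealInnerProductSpace

noncomputable section

namespace Pool.Agent.MP_187b32_an.C3

open Pool.Agent.MP_187b32_an.Coll

lemma exp_diff {a b m : ℝ} (ha : m ≤ a) (hb : m ≤ b) :
    |exp (-a) - exp (-b)| ≤ |a - b| * exp (-m) := by
  have key : ∀ a b : ℝ, m ≤ a → a ≤ b → |exp (-a) - exp (-b)| ≤ |a - b| * exp (-m) := by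
    intro a b ha hab
    have h1 : exp (-b) = exp (-a) * exp (-(b - a)) := by rw [← exp_add]; ring_nf
    have h2 := add_one_le_exp (-(b - a))
    have h3 : exp (-b) ≤ exp (-a) := exp_le_exp.2 (by linarith)
    have h4 : exp (-a) ≤ exp (-m) := exp_le_exp.2 (by linarith)
    have h5 := exp_pos (-a)
    rw [abs_of_nonneg (by linarith), abs_of_nonpos (by linarith)]
    calc exp (-a) - exp (-b) ≤ (b - a) * exp (-a) := by rw [h1]; nlinarith
      _ ≤ -(a - b) * exp (-m) := by rw [neg_sub]; gcongr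
  rcases le_total a b with h | h
  · exact key a b ha h
  · rw [abs_sub_comm, abs_sub_comm a]; exact key b a hb h

/-- first order difference in the cross term -/
def HH (p : E × E × S2) : ℝ :=
  |sM p.2.1 * sM (pv p.1 p.2.1 p.2.2) - sM p.1 * sM (pw p.1 p.2.1 p.2.2)|

@[fun_prop] lemma measurable_HH : Measurable HH := by unfold HH; fun_prop

lemma HH_nonneg (p : E × E × S2) : 0 ≤ HH p := abs_nonneg _

lemma HH_symm (p : E × E × S2) : HH (swp (coll p)) = HH p := by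
  simp only [HH, swp, coll]
  rw [pv_swap (pv p.1 p.2.1 p.2.2), pw_swap (pv p.1 p.2.1 p.2.2), pv_pv, pw_pw, mul_comm,
    mul_comm (sM (pw _ _ _))]

lemma half_sq_le {x v : E} (h : ‖x - v‖ ≤ 1) : ‖v‖ ^ 2 / 2 - 1 ≤ ‖x‖ ^ 2 := by
  have h1 := norm_sub_norm_le v x
  rw [norm_sub_rev] at h1
  have h2 : ‖v‖ ≤ ‖x‖ + 1 := by linarith
  have h3 : ‖v‖ ^ 2 ≤ (‖x‖ + 1) ^ 2 := by gcongr
  nlinarith [sq_nonneg (‖x‖ - 1)]

lemma HH_le (p : E × E × S2) (h : |rho p| ≤ 1) :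
    HH p ≤ |rho p| * (exp (1 / 4) * ((1 + ‖p.1‖) * exp (-(1 / 8 * ‖p.1‖ ^ 2)))
      * ((1 + ‖p.2.1‖) * exp (-(1 / 8 * ‖p.2.1‖ ^ 2)))) := by
  obtain ⟨v, w, o⟩ := p
  have h1 := half_sq_le ((norm_pv_sub v w o).trans_le h)
  have h2 := half_sq_le ((norm_pw_sub v w o).trans_le h)
  have e1 : sM w * sM (pv v w o) = exp (-((‖w‖ ^ 2 + ‖pv v w o‖ ^ 2) / 4)) := by
    rw [sM, sM, ← exp_add]; ring_nf
  have e2 : sM v * sM (pw v w o) = exp (-((‖v‖ ^ 2 + ‖pw v w o‖ ^ 2) / 4)) := by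
    rw [sM, sM, ← exp_add]; ring_nf
  have h3 := exp_diff (a := (‖w‖ ^ 2 + ‖pv v w o‖ ^ 2) / 4) (b := (‖v‖ ^ 2 + ‖pw v w o‖ ^ 2) / 4)
    (m := (‖v‖ ^ 2 + ‖w‖ ^ 2) / 8 - 1 / 4) (by nlinarith [sq_nonneg ‖w‖])
    (by nlinarith [sq_nonneg ‖v‖])
  have h4 : (‖w‖ ^ 2 + ‖pv v w o‖ ^ 2) / 4 - (‖v‖ ^ 2 + ‖pw v w o‖ ^ 2) / 4
      = -(rho (v, w, o) * (⟪v, (o : E)⟫ + ⟪w, (o : E)⟫)) / 2 := by
    simp only [pv, pw, rho]
    rw [norm_sub_sq_real, norm_add_sq_real, inner_smul_right, inner_smul_right]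
    ring
  have h5 : |⟪v, (o : E)⟫ + ⟪w, (o : E)⟫| ≤ (1 + ‖v‖) * (1 + ‖w‖) := by
    have := abs_add_le ⟪v, (o : E)⟫ ⟪w, (o : E)⟫
    nlinarith [abs_inner_le v o, abs_inner_le w o, mul_nonneg (norm_nonneg v) (norm_nonneg w)]
  have e3 : exp (-((‖v‖ ^ 2 + ‖w‖ ^ 2) / 8 - 1 / 4))
      = exp (1 / 4) * exp (-(1 / 8 * ‖v‖ ^ 2)) * exp (-(1 / 8 * ‖w‖ ^ 2)) := by
    rw [← exp_add, ← exp_add]; ring_nf
  rw [h4, e3, abs_div, abs_neg, abs_mul, abs_two] at h3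
  simp only [HH, e1, e2]
  refine h3.trans ?_
  have h6 : |rho (v, w, o)| * |⟪v, (o : E)⟫ + ⟪w, (o : E)⟫| / 2
      ≤ |rho (v, w, o)| * ((1 + ‖v‖) * (1 + ‖w‖)) := by
    have := mul_le_mul_of_nonneg_left h5 (abs_nonneg (rho (v, w, o)))
    have := mul_nonneg (abs_nonneg (rho (v, w, o))) (abs_nonneg (⟪v, (o : E)⟫ + ⟪w, (o : E)⟫))
    linarith
  calc _ ≤ |rho (v, w, o)| * ((1 + ‖v‖) * (1 + ‖w‖))
        * (exp (1 / 4) * exp (-(1 / 8 * ‖v‖ ^ 2)) * exp (-(1 / 8 * ‖w‖ ^ 2))) := by gcongr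
    _ = _ := by ring

/-- the integrable singularity left after one difference -/
def psi (t : ℝ) : ℝ≥0∞ :=
  (Metric.ball (0 : ℝ) 2).indicator (fun t => ENNReal.ofReal (‖t‖ ^ (-(1 / 2) : ℝ))) t

lemma measurable_psi : Measurable psi :=
  (ENNReal.measurable_ofReal.comp (Measurable.pow_const measurable_norm _)).indicator
    measurableSet_ball

lemma lint_psi : ∫⁻ t, psi t ≠ ⊤ := by
  have h : IntegrableOn (fun x : ℝ => ‖x‖ ^ (-(1 / 2) : ℝ)) (Metric.ball (0 : ℝ) 2) volume := by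
    rw [integrableOn_fun_norm_addHaar volume (f := fun y : ℝ => y ^ (-(1 / 2) : ℝ))]
    simp only [Module.finrank_self, Nat.sub_self, pow_zero, one_smul]
    exact (intervalIntegral.integrableOn_Ioo_rpow_iff (by norm_num)).2 (by norm_num)
  unfold psi
  rw [lintegral_indicator measurableSet_ball]
  exact h.lintegral_lt_top.ne

lemma phi_mul_abs_le (ε t : ℝ) : ENNReal.ofReal (phi ε t * |t|) ≤ psi t := by
  by_cases ht : 1 < |t|
  · rw [phi_eq_zero ht]; simp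
  · have h1 : t ∈ Metric.ball (0 : ℝ) 2 := by
      rw [mem_ball_zero_iff, Real.norm_eq_abs]; linarith [not_lt.1 ht]
    rw [psi, indicator_of_mem h1, Real.norm_eq_abs]
    refine ENNReal.ofReal_le_ofReal ((mul_le_mul_of_nonneg_right (phi_le ε t) (abs_nonneg t)).trans
      (le_of_eq ?_))
    rw [← rpow_add_one' (abs_nonneg t) (by norm_num)]; norm_num

lemma ang_first (u : E) : ∫⁻ o : S2, ENNReal.ofReal (‖u‖ ^ (19 / 2 : ℝ)) * psi ⟪u, (o : E)⟫ ∂sph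
    ≤ ENNReal.ofReal (2 * π * (1 + ‖u‖) ^ 9) * ∫⁻ t, psi t := by
  by_cases hu : u = 0
  · subst hu; simp
  · have hn : 0 < ‖u‖ := norm_pos_iff.2 hu
    rw [lintegral_const_mul' _ _ ENNReal.ofReal_ne_top, archimedes_vec u hu psi measurable_psi,
      ← mul_assoc, ← ENNReal.ofReal_mul (by positivity)]
    refine mul_le_mul' (ENNReal.ofReal_le_ofReal ?_) (setLIntegral_le_lintegral _ _)
    have h1 : ‖u‖ ^ (19 / 2 : ℝ) = ‖u‖ ^ (17 / 2 : ℝ) * ‖u‖ := by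
      rw [← rpow_add_one hn.ne']; norm_num
    have h2 := norm_rpow_le u (a := 17 / 2) (n := 9) (by norm_num) (by norm_num)
    rw [h1]
    calc ‖u‖ ^ (17 / 2 : ℝ) * ‖u‖ * (2 * π / ‖u‖) = 2 * π * ‖u‖ ^ (17 / 2 : ℝ) := by field_simp
      _ ≤ _ := by gcongr

lemma lint_mm_fst (ε : ℝ) {G : E → ℝ≥0∞} (hG : Measurable G) {F : E × E × S2 → ℝ≥0∞}
    (hF : Measurable F) : ∫⁻ p, G p.1 * F p ∂mm ε
      = ∫⁻ v, G v * ∫⁻ w, ∫⁻ o, ENNReal.ofReal (kc ε (v, w, o)) * F (v, w, o) ∂sph := by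
  have h1 : Measurable fun p : E × E × S2 => G p.1 * F p := (hG.comp measurable_fst).mul hF
  have h2 : Measurable fun p : E × E × S2 => ENNReal.ofReal (kc ε p) * (G p.1 * F p) :=
    Measurable.mul (by fun_prop) h1
  have h3 : Measurable fun p : E × E × S2 => ENNReal.ofReal (kc ε p) * F p :=
    Measurable.mul (by fun_prop) hF
  rw [lint_mm ε h1, lintegral_mu3 _ h2]
  refine lintegral_congr fun v => ?_
  have h4 : Measurable fun q : E × S2 => ENNReal.ofReal (kc ε (v, q.1, q.2)) * F (v, q.1, q.2) :=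
    h3.comp (f := fun q : E × S2 => (v, q.1, q.2)) (by fun_prop)
  rw [← lintegral_const_mul _ h4.lintegral_prod_right']
  refine lintegral_congr fun w => ?_
  have h5 : Measurable fun o : S2 => ENNReal.ofReal (kc ε (v, w, o)) * F (v, w, o) :=
    h4.comp (f := fun o : S2 => (w, o)) (by fun_prop)
  rw [← lintegral_const_mul _ h5]
  exact lintegral_congr fun o => by ring

lemma HH_bound : ∃ C : ℝ≥0∞, C ≠ ⊤ ∧ ∀ (ε : ℝ) (g : E → ℝ), Measurable g →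
    ∫⁻ p, ENNReal.ofReal (g p.1 ^ 2) * ENNReal.ofReal (HH p) ∂mm ε ≤ C * L2L g := by
  set A : ℝ := 4 * π * exp (1 / 4) * exp (((10 : ℕ) : ℝ) ^ 2 / (4 * (1 / 8)))
    * exp (((14 : ℕ) : ℝ) ^ 2 / (4 * (1 / 8))) with hA
  refine ⟨ENNReal.ofReal A * (∫⁻ t, psi t) * ∫⁻ z, ENNReal.ofReal (jap z),
    ENNReal.mul_ne_top (ENNReal.mul_ne_top ENNReal.ofReal_ne_top lint_psi) lint_jap,
    fun ε g hg => ?_⟩
  rw [lint_mm_fst ε (G := fun v => ENNReal.ofReal (g v ^ 2)) (by fun_prop) (by fun_prop), L2L,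
    ← lintegral_const_mul _ (by fun_prop)]
  refine lintegral_mono fun v => ?_
  simp only
  rw [mul_comm]
  refine mul_le_mul_left ?_ _
  rw [← lintegral_const_mul _ (by fun_prop)]
  refine lintegral_mono fun w => ?_
  set D : ℝ := exp (1 / 4) * ((1 + ‖v‖) * exp (-(1 / 8 * ‖v‖ ^ 2)))
    * ((1 + ‖w‖) * exp (-(1 / 8 * ‖w‖ ^ 2))) with hD
  have hD0 : 0 ≤ D := by positivity
  have h1 : ∀ o : S2, ENNReal.ofReal (kc ε (v, w, o)) * ENNReal.ofReal (HH (v, w, o))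
      ≤ ENNReal.ofReal (2 * D) *
        (ENNReal.ofReal (‖v - w‖ ^ (19 / 2 : ℝ)) * psi ⟪v - w, (o : E)⟫) := by
    intro o
    by_cases hr : 1 < |rho (v, w, o)|
    · rw [kc, phi_eq_zero hr]; simp
    · have h2 := HH_le (v, w, o) (not_lt.1 hr)
      have h3 := phi_nonneg ε (rho (v, w, o))
      refine le_trans ?_ (mul_le_mul_right (mul_le_mul_right (phi_mul_abs_le ε _) _) _)
      rw [← ENNReal.ofReal_mul (kc_nonneg _ _), ← ENNReal.ofReal_mul (by positivity),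
        ← ENNReal.ofReal_mul (by positivity)]
      refine ENNReal.ofReal_le_ofReal ?_
      calc kc ε (v, w, o) * HH (v, w, o) ≤ kc ε (v, w, o) * (|rho (v, w, o)| * D) :=
            mul_le_mul_of_nonneg_left h2 (kc_nonneg _ _)
        _ = _ := by simp only [kc, rho]; ring
  simp only
  refine (lintegral_mono h1).trans ?_
  rw [lintegral_const_mul' _ _ ENNReal.ofReal_ne_top]
  refine (mul_le_mul_right (ang_first (v - w)) _).trans ?_
  rw [← mul_assoc, ← ENNReal.ofReal_mul (by positivity), mul_right_comm (ENNReal.ofReal A),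
    ← ENNReal.ofReal_mul (by positivity)]
  refine mul_le_mul_left (ENNReal.ofReal_le_ofReal ?_) _
  have a1 := gauss_poly 10 (c := 1 / 8) (by norm_num) (norm_nonneg v)
  have a2 := le_jap (n := 10) (gauss_poly 14 (c := 1 / 8) (by norm_num) (norm_nonneg w))
  have a3 := one_add_sub_le v w
  calc 2 * D * (2 * π * (1 + ‖v - w‖) ^ 9)
      ≤ 2 * D * (2 * π * ((1 + ‖v‖) * (1 + ‖w‖)) ^ 9) := by gcongr
    _ = 4 * π * exp (1 / 4) * ((1 + ‖v‖) ^ 10 * exp (-(1 / 8 * ‖v‖ ^ 2)))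
        * ((1 + ‖w‖) ^ 10 * exp (-(1 / 8 * ‖w‖ ^ 2))) := by rw [hD]; ring
    _ ≤ 4 * π * exp (1 / 4) * exp (((10 : ℕ) : ℝ) ^ 2 / (4 * (1 / 8)))
        * (exp (((14 : ℕ) : ℝ) ^ 2 / (4 * (1 / 8))) * jap w) :=
      mul_le_mul (mul_le_mul_of_nonneg_left a1 (by positivity)) a2 (by positivity) (by positivity)
    _ = _ := by rw [hA]; ring

lemma sM_gap {w x : E} (hw : ‖w‖ ≤ 1 / 10) (hx : 1 / 2 ≤ ‖x - w‖) :
    exp (-(1 / 400)) - exp (-(1 / 25)) ≤ sM w - sM x := by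
  have h1 : 2 / 5 ≤ ‖x‖ := by linarith [norm_sub_le x w]
  have h2 : exp (-(1 / 400)) ≤ sM w := exp_le_exp.2 (by nlinarith [norm_nonneg w])
  have h3 : sM x ≤ exp (-(1 / 25)) := exp_le_exp.2 (by nlinarith)
  linarith

lemma nu_lower : ∃ c : ℝ, 0 < c ∧ ∀ ε : ℝ, ε ≤ 1 / 2 → ∀ v : E, 2 ≤ ‖v‖ →
    ENNReal.ofReal (c * (1 + ‖v‖) ^ (17 / 2 : ℝ)) ≤
      ∫⁻ w, ∫⁻ o, ENNReal.ofReal (kc ε (v, w, o))
        * ENNReal.ofReal ((sM w - sM (pw v w o)) ^ 2) ∂sph := by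
  set c0 : ℝ := exp (-(1 / 400)) - exp (-(1 / 25)) with hc0
  have hc : 0 < c0 := sub_pos.2 (exp_lt_exp.2 (by norm_num))
  set B : Set E := Metric.ball (0 : E) (1 / 10) with hB
  have hB0 : 0 < (volume B).toReal :=
    ENNReal.toReal_pos (Metric.measure_ball_pos _ _ (by norm_num)).ne' measure_ball_lt_top.ne
  refine ⟨2 * π * c0 ^ 2 * (1 / 2) ^ (17 / 2 : ℝ) * (volume B).toReal, by positivity,
    fun ε hε v hv => ?_⟩
  have h1 : ∀ w ∈ B, ENNReal.ofReal (2 * π * c0 ^ 2 * (1 / 2) ^ (17 / 2 : ℝ)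
      * (1 + ‖v‖) ^ (17 / 2 : ℝ)) ≤ ∫⁻ o, ENNReal.ofReal (kc ε (v, w, o))
        * ENNReal.ofReal ((sM w - sM (pw v w o)) ^ 2) ∂sph := by
    intro w hw
    have hw' : ‖w‖ < 1 / 10 := mem_ball_zero_iff.1 hw
    have hu1 : ‖v‖ - 1 / 10 ≤ ‖v - w‖ := by linarith [norm_sub_norm_le v w]
    have hn : 0 < ‖v - w‖ := by linarith
    set K : ℝ := 2 * ‖v - w‖ ^ (19 / 2 : ℝ) * c0 ^ 2 with hK
    have h2 : ∀ o : S2, (Icc (1 / 2 : ℝ) 1).indicator (fun _ => ENNReal.ofReal K) ⟪v - w, (o : E)⟫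
        ≤ ENNReal.ofReal (kc ε (v, w, o)) * ENNReal.ofReal ((sM w - sM (pw v w o)) ^ 2) := by
      intro o
      by_cases ho : ⟪v - w, (o : E)⟫ ∈ Icc (1 / 2 : ℝ) 1
      · have ha : |⟪v - w, (o : E)⟫| = ⟪v - w, (o : E)⟫ := abs_of_pos (by linarith [ho.1])
        have h3 : 1 ≤ phi ε ⟪v - w, (o : E)⟫ := by
          rw [phi, indicator_of_mem (show _ ∈ win ε from ⟨by linarith [ho.1], by linarith [ho.2]⟩)]
          exact one_le_rpow_of_pos_of_le_one_of_nonpos (by linarith [ho.1]) (by linarith [ho.2])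
            (by norm_num)
        have h4 := sM_gap (x := pw v w o) hw'.le (by rw [norm_pw_sub, ha]; exact ho.1)
        rw [indicator_of_mem ho, ← ENNReal.ofReal_mul (kc_nonneg _ _)]
        refine ENNReal.ofReal_le_ofReal ?_
        calc K = 2 * ‖v - w‖ ^ (19 / 2 : ℝ) * 1 * c0 ^ 2 := by rw [hK]; ring
          _ ≤ 2 * ‖v - w‖ ^ (19 / 2 : ℝ) * phi ε ⟪v - w, (o : E)⟫
              * (sM w - sM (pw v w o)) ^ 2 := by gcongr
          _ = _ := rfl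
      · rw [indicator_of_notMem ho]; exact zero_le
    refine le_trans ?_ (lintegral_mono h2)
    have hsub : Icc (1 / 2 : ℝ) 1 ⊆ Ioo (-‖v - w‖) ‖v - w‖ :=
      fun t ht => ⟨by linarith [ht.1], by linarith [ht.2]⟩
    rw [archimedes_vec _ (norm_pos_iff.1 hn) _ (measurable_const.indicator measurableSet_Icc),
      lintegral_indicator measurableSet_Icc, setLIntegral_const,
      Measure.restrict_apply measurableSet_Icc,
      inter_eq_left.2 hsub, Real.volume_Icc,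
      ← ENNReal.ofReal_mul (by positivity), ← ENNReal.ofReal_mul (by positivity)]
    refine ENNReal.ofReal_le_ofReal ?_
    have h5 : ‖v - w‖ ^ (19 / 2 : ℝ) = ‖v - w‖ ^ (17 / 2 : ℝ) * ‖v - w‖ := by
      rw [← rpow_add_one hn.ne']; norm_num
    have h6 : (1 / 2) ^ (17 / 2 : ℝ) * (1 + ‖v‖) ^ (17 / 2 : ℝ) ≤ ‖v - w‖ ^ (17 / 2 : ℝ) := by
      rw [← mul_rpow (by norm_num) (by positivity)]
      gcongr
      linarith
    calc 2 * π * c0 ^ 2 * (1 / 2) ^ (17 / 2 : ℝ) * (1 + ‖v‖) ^ (17 / 2 : ℝ)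
        = 2 * π * c0 ^ 2 * ((1 / 2) ^ (17 / 2 : ℝ) * (1 + ‖v‖) ^ (17 / 2 : ℝ)) := by ring
      _ ≤ 2 * π * c0 ^ 2 * ‖v - w‖ ^ (17 / 2 : ℝ) := by gcongr
      _ = _ := by rw [hK, h5]; field_simp; ring
  calc _ = ∫⁻ _ in B, ENNReal.ofReal (2 * π * c0 ^ 2 * (1 / 2) ^ (17 / 2 : ℝ)
        * (1 + ‖v‖) ^ (17 / 2 : ℝ)) := by
        rw [setLIntegral_const, ← ENNReal.ofReal_toReal (measure_ball_lt_top.ne : volume B ≠ ⊤),
          ← ENNReal.ofReal_mul (by positivity), ENNReal.toReal_ofReal hB0.le]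
        congr 1; ring
    _ ≤ ∫⁻ w in B, ∫⁻ o, ENNReal.ofReal (kc ε (v, w, o))
        * ENNReal.ofReal ((sM w - sM (pw v w o)) ^ 2) ∂sph :=
        setLIntegral_mono' measurableSet_ball h1
    _ ≤ _ := setLIntegral_le_lintegral _ _

end Pool.Agent.MP_187b32_an.C3
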